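import Pool.Agent.Helper54.SRD.Goals
import Pool.Agent.Helper54.SRD.Basic

/-! Packets SRD-EXIT and SRD-LSC. -/

open Set Filter MeasureTheory Metric
open scoped Manifold ContDiff Topology

noncomputable section

namespace Pool.Agent.Helper14.SRD

open Pool.Agent.Helper54.SRD

variable (E : Type*) [NormedAddCommGroup E] [NormedSpace ℝ E] [FiniteDimensional ℝ E]
variable (M : Type*) [TopologicalSpace M] [ChartedSpace E M] [IsManifold 𝓘(ℝ, E) ∞ M]

variable {E} {M}

omit [FiniteDimensional ℝ E] [IsManifold 𝓘(ℝ, E) ∞ M] in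
theorem isPD (G : AMetric E M) (x : M) (z : E) (hz : z ∈ tgt E x) : IsPD (G.G x z) :=
  ⟨fun u v => G.symm x z hz u v, fun u hu => G.pos x z hz u hu⟩

omit [FiniteDimensional ℝ E] [IsManifold 𝓘(ℝ, E) ∞ M] in
theorem speed_reverse (G : AMetric E M) (C : ℝ) (γ : ℝ → M) (a t : ℝ)
    (h : SpeedLE G C γ (a - t)) : SpeedLE G C (fun s => γ (a - s)) t := by
  obtain ⟨h1, h2⟩ := h
  refine ⟨?_, ?_⟩
  · have : ContinuousAt (fun s : ℝ => a - s) t := by fun_prop
    exact ContinuousAt.comp (f := fun s : ℝ => a - s) (x := t) h1 this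
  · intro δ hδ
    have ht : Tendsto (fun p : ℝ × ℝ => (a - p.1, a - p.2)) (𝓝 (t, t)) (𝓝 (a - t, a - t)) := by
      have : Continuous (fun p : ℝ × ℝ => (a - p.1, a - p.2)) := by fun_prop
      exact this.tendsto (t, t)
    filter_upwards [ht.eventually (h2 δ hδ)] with p hp
    have e : |a - p.2 - (a - p.1)| = |p.2 - p.1| := by
      rw [abs_sub_comm]
      congr 1
      ring
    rw [e] at hp
    exact hp

/-- forward half -/
theorem exit_forward (hINT : S_INT E M) [T2Space M] (G : AMetric E M) (C : ℝ) (x : M) (hC : 0 ≤ C)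
    (R m : ℝ) (hm : 0 < m) (hR : 0 < R)
    (hsub : closedBall (ch x x : E) R ⊆ tgt E x)
    (hmm : ∀ z ∈ closedBall (ch x x : E) R, ∀ u, m * ‖u‖ ≤ nm (G.G x z) u)
    (γ : ℝ → M) (t₀ : ℝ) (hγ : ∀ t, SpeedLE G C γ t) (h0 : γ t₀ ∈ src E x)
    (h0' : (ch x (γ t₀) : E) ∈ ball (ch x x : E) (R / 2)) :
    ∀ t, t₀ ≤ t → t < t₀ + R / 2 * m / (C + 1) →
      γ t ∈ src E x ∧ (ch x (γ t) : E) ∈ ball (ch x x : E) R := by
  have : ProperSpace E := FiniteDimensional.proper_real E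
  set z : E := ch x x with hz
  set W : Set M := src E x ∩ (ch x : M → E) ⁻¹' ball z R with hW
  have hWo : IsOpen W := (continuousOn_ch x).isOpen_inter_preimage (isOpen_src x) isOpen_ball
  have hcont : Continuous γ := continuous_iff_continuousAt.2 fun t => (hγ t).1
  set Q : Set M := (chi x : E → M) '' closedBall z R with hQ
  have hQc : IsClosed Q :=
    ((isCompact_closedBall z R).image_of_continuousOn ((continuousOn_chi x).mono hsub)).isClosed
  have hQm : ∀ p ∈ Q, p ∈ src E x ∧ (ch x p : E) ∈ closedBall z R := by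
    rintro p ⟨w, hw, rfl⟩
    refine ⟨chi_mem (hsub hw), ?_⟩
    rw [ch_chi (hsub hw)]
    exact hw
  have hWQ : ∀ p ∈ W, p ∈ Q := by
    rintro p ⟨h1, h2⟩
    exact ⟨ch x p, ball_subset_closedBall h2, chi_ch h1⟩
  by_contra hcon
  push Not at hcon
  obtain ⟨t₂, ht₂, ht₂', hbad⟩ := hcon
  have hbad' : γ t₂ ∉ W := fun h => hbad h.1 h.2
  have hcomp : IsCompact (γ ⁻¹' Wᶜ ∩ Icc t₀ t₂) :=
    isCompact_Icc.inter_left (hWo.isClosed_compl.preimage hcont)
  obtain ⟨t₁, ⟨ht₁, ht₁'⟩, hleast⟩ := hcomp.exists_isLeast ⟨t₂, hbad', ht₂, le_rfl⟩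
  have hW0 : γ t₀ ∈ W := ⟨h0, ball_subset_ball (by linarith) h0'⟩
  have hlt : t₀ < t₁ := by
    rcases lt_or_eq_of_le ht₁'.1 with h | h
    · exact h
    · rw [← h] at ht₁
      exact absurd hW0 ht₁
  have hbefore : ∀ t ∈ Ico t₀ t₁, γ t ∈ W := by
    intro t ht
    by_contra h
    have := hleast (show t ∈ γ ⁻¹' Wᶜ ∩ Icc t₀ t₂ from ⟨h, ht.1, ht.2.le.trans ht₁'.2⟩)
    exact absurd ht.2 (not_lt.2 this)
  have hQ1 : γ t₁ ∈ Q := by
    have hcl : t₁ ∈ closure (Ico t₀ t₁) := by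
      rw [closure_Ico hlt.ne]
      exact ⟨hlt.le, le_rfl⟩
    have := map_mem_closure hcont hcl (fun t ht => hWQ _ (hbefore t ht))
    rwa [hQc.closure_eq] at this
  have hall : ∀ t ∈ Icc t₀ t₁, γ t ∈ Q := by
    intro t ht
    rcases lt_or_eq_of_le ht.2 with h | h
    · exact hWQ _ (hbefore t ⟨ht.1, h⟩)
    · rw [h]
      exact hQ1
  have key := hINT G C γ t₀ t₁ x (fun u : E => ‖u‖) (1 / m) hC (by positivity) hlt.le
    (fun t ht => ⟨hγ t, (hQm _ (hall t ht)).1⟩) norm_zero norm_add_le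
    (fun t ht u => by
      have := hmm _ (hQm _ (hall t ht)).2 u
      rw [one_div, inv_mul_eq_div, le_div_iff₀ hm]
      linarith)
  have hsmall : 1 / m * C * (t₁ - t₀) < R / 2 := by
    have h1 : t₁ - t₀ < R / 2 * m / (C + 1) := by
      have := ht₁'.2
      linarith
    have hC1 : 0 < C + 1 := by linarith
    rw [lt_div_iff₀ hC1] at h1
    have h2 : C * (t₁ - t₀) < R / 2 * m := by nlinarith
    calc 1 / m * C * (t₁ - t₀) = (C * (t₁ - t₀)) / m := by ring
      _ < R / 2 := by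
        rw [div_lt_iff₀ hm]
        exact h2
  have hin : γ t₁ ∈ W := by
    refine ⟨(hQm _ hQ1).1, ?_⟩
    show (ch x (γ t₁) : E) ∈ ball z R
    rw [mem_ball, dist_eq_norm] at h0' ⊢
    calc ‖(ch x (γ t₁) : E) - z‖ = ‖((ch x (γ t₁) : E) - ch x (γ t₀)) + (ch x (γ t₀) - z)‖ := by
          congr 1
          abel
      _ ≤ ‖(ch x (γ t₁) : E) - ch x (γ t₀)‖ + ‖(ch x (γ t₀) : E) - z‖ := norm_add_le _ _
      _ < R := by
        linarith
  exact ht₁ hin

theorem exit (E : Type*) [NormedAddCommGroup E] [NormedSpace ℝ E] [FiniteDimensional ℝ E]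
    (M : Type*) [TopologicalSpace M] [ChartedSpace E M] [IsManifold 𝓘(ℝ, E) ∞ M]
    (hINT : S_INT E M) (hNMC : S_NMC E) : S_EXIT E M := by
  intro _ G C x N hC hN
  have : ProperSpace E := FiniteDimensional.proper_real E
  have hzt : (ch x x : E) ∈ tgt E x := ch_mem (mem_src x)
  have hnb : tgt E x ∩ (chi x : E → M) ⁻¹' N ∈ 𝓝 (ch x x : E) := by
    refine inter_mem ((isOpen_tgt x).mem_nhds hzt) ?_
    have hc := continuousAt_chi (x := x) hzt
    have : N ∈ 𝓝 (chi x (ch x x : E)) := by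
      rw [chi_ch (mem_src x)]
      exact hN
    exact hc this
  obtain ⟨R, hR, hsub⟩ := nhds_basis_closedBall.mem_iff.1 hnb
  obtain ⟨m, hm, _, _, hmm⟩ := (hNMC (tgt E x) (G.G x) (isOpen_tgt x) (G.smooth x).continuousOn
    (fun z hz => isPD G x z hz)).2 (closedBall (ch x x : E) R) (fun z hz => (hsub hz).1)
    (isCompact_closedBall _ _)
  refine ⟨src E x ∩ (ch x : M → E) ⁻¹' ball (ch x x : E) (R / 2), ?_, R / 2 * m / (C + 1),
    by positivity, ?_⟩
  · refine inter_mem (src_mem_nhds x) ?_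
    exact continuousAt_ch (mem_src x) (ball_mem_nhds _ (by positivity))
  · intro γ t₀ hγ h0 t ht
    have hcon : ∀ p : M, p ∈ src E x → (ch x p : E) ∈ ball (ch x x : E) R → p ∈ N := by
      intro p h1 h2
      have := (hsub (ball_subset_closedBall h2)).2
      rw [mem_preimage, chi_ch h1] at this
      exact this
    rw [abs_lt] at ht
    rcases le_total t₀ t with h | h
    · obtain ⟨q1, q2⟩ := exit_forward hINT G C x hC R m hm hR (fun z hz => (hsub hz).1)
        (fun z hz u => (hmm z hz u).1) γ t₀ hγ h0.1 h0.2 t h (by linarith [ht.2])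
      exact hcon _ q1 q2
    · obtain ⟨q1, q2⟩ := exit_forward hINT G C x hC R m hm hR (fun z hz => (hsub hz).1)
        (fun z hz u => (hmm z hz u).1) (fun s => γ (2 * t₀ - s)) t₀
        (fun s => speed_reverse G C γ (2 * t₀) s (hγ _))
        (by
          show γ (2 * t₀ - t₀) ∈ _
          rw [show 2 * t₀ - t₀ = t₀ by ring]
          exact h0.1)
        (by
          show (ch x (γ (2 * t₀ - t₀)) : E) ∈ _
          rw [show 2 * t₀ - t₀ = t₀ by ring]
          exact h0.2) (2 * t₀ - t) (by linarith) (by linarith [ht.1])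
      simp only [sub_sub_cancel] at q1 q2
      exact hcon _ q1 q2

omit [FiniteDimensional ℝ E] in
theorem nm_neg (B : Bil E) (u : E) : nm B (-u) = nm B u := by
  unfold nm
  simp

omit [FiniteDimensional ℝ E] in
theorem continuous_nm (B : Bil E) : Continuous (nm B) := by
  unfold nm
  fun_prop

theorem lsc (E : Type*) [NormedAddCommGroup E] [NormedSpace ℝ E] [FiniteDimensional ℝ E]
    (M : Type*) [TopologicalSpace M] [ChartedSpace E M] [IsManifold 𝓘(ℝ, E) ∞ M]
    (hINT : S_INT E M) (hNMC : S_NMC E) (hNM : S_NM E) : S_LSC E M := by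
  intro _ G 𝒰 γ γ' c c' _ hLU hc hcc hspeed t₀
  have : ProperSpace E := FiniteDimensional.proper_real E
  have : LocallyCompactSpace M := ChartedSpace.locallyCompactSpace E M
  have hlim : ∀ t, Tendsto (fun n => γ n t) 𝒰 (𝓝 (γ' t)) := by
    intro t
    rw [tendsto_def]
    intro N hN
    obtain ⟨r, hr, h⟩ := hLU t N hN
    filter_upwards [h] with n hn
    exact hn t (by simpa using hr)
  have hclosed : ∀ N ∈ 𝓝 (γ' t₀), IsClosed N → ∃ r > 0, (∀ᶠ n in 𝒰, ∀ t, |t - t₀| < r → γ n t ∈ N) ∧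
      ∀ t, |t - t₀| < r → γ' t ∈ N := by
    intro N hN hNc
    obtain ⟨r, hr, h⟩ := hLU t₀ N hN
    refine ⟨r, hr, h, ?_⟩
    intro t ht
    refine hNc.mem_of_tendsto (hlim t) ?_
    filter_upwards [h] with n hn
    exact hn t ht
  have hball : ∀ r > 0, {t : ℝ | |t - t₀| < r} ∈ 𝓝 t₀ := by
    intro r hr
    have : {t : ℝ | |t - t₀| < r} = ball t₀ r := by
      ext t
      simp [Real.dist_eq]
    rw [this]
    exact ball_mem_nhds _ hr
  refine ⟨?_, ?_⟩
  · rw [ContinuousAt, tendsto_def]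
    intro N hN
    obtain ⟨N₁, ⟨hN₁, hN₁c⟩, hN₁N⟩ := (closed_nhds_basis (γ' t₀)).mem_iff.1 hN
    obtain ⟨r, hr, _, h⟩ := hclosed N₁ hN₁ hN₁c
    filter_upwards [hball r hr] with t ht
    exact hN₁N (h t ht)
  · intro δ hδ
    have hc' : 0 ≤ c' := ge_of_tendsto' hcc hc
    set x := γ' t₀ with hx
    set z₀ : E := ch x x with hz₀
    have hzt : z₀ ∈ tgt E x := ch_mem (mem_src x)
    have hδ₁ : 0 < δ / (c' + 1) := by positivity
    have hev := (hNMC (tgt E x) (G.G x) (isOpen_tgt x) (G.smooth x).continuousOn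
      (fun z hz => isPD G x z hz)).1 z₀ hzt _ hδ₁
    have hnb : src E x ∩ (ch x : M → E) ⁻¹' {z | ∀ u, nm (G.G x z) u ≤ (1 + δ / (c' + 1)) *
        nm (G.G x z₀) u ∧ nm (G.G x z₀) u ≤ (1 + δ / (c' + 1)) * nm (G.G x z) u} ∈ 𝓝 x :=
      inter_mem (src_mem_nhds x) (continuousAt_ch (mem_src x) hev)
    obtain ⟨N₁, ⟨hN₁, hN₁c⟩, hN₁N⟩ := (closed_nhds_basis x).mem_iff.1 hnb
    obtain ⟨r, hr, h1, h2⟩ := hclosed N₁ hN₁ hN₁c
    obtain ⟨hadd, -, -, -, -⟩ := hNM (G.G x z₀) (isPD G x z₀ hzt)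
    have main : ∀ p₁ p₂ : ℝ, |p₁ - t₀| < r → |p₂ - t₀| < r → p₁ ≤ p₂ →
        nm (G.G x z₀) (ch x (γ' p₂) - ch x (γ' p₁)) ≤ (c' + δ) * (p₂ - p₁) := by
      intro p₁ p₂ hp₁ hp₂ hle
      have hL : Tendsto (fun n => nm (G.G x z₀) (ch x (γ n p₂) - ch x (γ n p₁))) 𝒰
          (𝓝 (nm (G.G x z₀) (ch x (γ' p₂) - ch x (γ' p₁)))) := by
        refine ((continuous_nm _).tendsto _).comp ?_
        refine Tendsto.sub ?_ ?_
        · exact (continuousAt_ch (hN₁N (h2 p₂ hp₂)).1).tendsto.comp (hlim p₂)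
        · exact (continuousAt_ch (hN₁N (h2 p₁ hp₁)).1).tendsto.comp (hlim p₁)
      have hRt : Tendsto (fun n => (1 + δ / (c' + 1)) * c n * (p₂ - p₁)) 𝒰
          (𝓝 ((1 + δ / (c' + 1)) * c' * (p₂ - p₁))) :=
        (hcc.const_mul _).mul_const _
      have hle2 : nm (G.G x z₀) (ch x (γ' p₂) - ch x (γ' p₁)) ≤
          (1 + δ / (c' + 1)) * c' * (p₂ - p₁) := by
        refine le_of_tendsto_of_tendsto hL hRt ?_
        filter_upwards [h1, hspeed] with n hn hs
        have hmem : ∀ t ∈ Icc p₁ p₂, γ n t ∈ N₁ := by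
          intro t ht
          refine hn t ?_
          rw [abs_lt] at hp₁ hp₂ ⊢
          exact ⟨by linarith [ht.1, hp₁.1], by linarith [ht.2, hp₂.2]⟩
        exact hINT G (c n) (γ n) p₁ p₂ x (nm (G.G x z₀)) (1 + δ / (c' + 1)) (hc n) (by positivity)
          hle (fun t ht => ⟨hs t, (hN₁N (hmem t ht)).1⟩) (by simp [nm]) hadd
          (fun t ht u => ((hN₁N (hmem t ht)).2 u).2)
      refine hle2.trans (mul_le_mul_of_nonneg_right ?_ (by linarith))
      have : δ / (c' + 1) * c' ≤ δ := by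
        rw [div_mul_eq_mul_div, div_le_iff₀ (by positivity)]
        nlinarith
      linarith
    have hprod : ∀ᶠ p : ℝ × ℝ in 𝓝 (t₀, t₀), |p.1 - t₀| < r ∧ |p.2 - t₀| < r := by
      rw [nhds_prod_eq]
      exact (show ∀ᶠ t in 𝓝 t₀, |t - t₀| < r from hball r hr).prod_mk
        (show ∀ᶠ t in 𝓝 t₀, |t - t₀| < r from hball r hr)
    filter_upwards [hprod] with p hp
    rcases le_total p.1 p.2 with h | h
    · rw [abs_of_nonneg (by linarith)]
      exact main _ _ hp.1 hp.2 h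
    · rw [abs_of_nonpos (by linarith), ← nm_neg]
      have := main _ _ hp.2 hp.1 h
      rw [neg_sub, neg_sub]
      exact this

end Pool.Agent.Helper14.SRD
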